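import Pool.Agent.Q246.DL.Glob

/-! The signature law. -/

set_option autoImplicit false
set_option linter.unusedSectionVars false

namespace Pool.Agent.Q246.DL

open Complex Filter NumberField IsDedekindDomain Polynomial
open Pool.Agent.Q246.BI Pool.Agent.Q246.RP Pool.Agent.W401.Cheb
open scoped Classical

/-- the algebraic numbers -/
def algU : Subgroup ℂˣ where
  carrier := {u | IsAlgebraic ℚ (u : ℂ)}
  one_mem' := by
    change IsAlgebraic ℚ ((1 : ℂˣ) : ℂ)
    rw [Units.val_one]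
    exact isAlgebraic_one
  mul_mem' := fun {a b} ha hb => by
    change IsAlgebraic ℚ ((a * b : ℂˣ) : ℂ)
    rw [Units.val_mul]
    exact IsAlgebraic.mul ha hb
  inv_mem' := fun {a} ha => by
    change IsAlgebraic ℚ ((a⁻¹ : ℂˣ) : ℂ)
    rw [Units.val_inv_eq_inv_val]
    exact IsAlgebraic.inv ha

/-- the numbers modulo the algebraic numbers -/
def QQ : Type := Additive (ℂˣ ⧸ algU)

noncomputable instance : AddCommGroup QQ := inferInstanceAs (AddCommGroup (Additive (ℂˣ ⧸ algU)))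

/-- the class of a unit -/
noncomputable def ucl (z : ℂˣ) : QQ := Additive.ofMul (QuotientGroup.mk z)

theorem ucl_mul (a b : ℂˣ) : ucl (a * b) = ucl a + ucl b := rfl

theorem ucl_surj (a : QQ) : ∃ u, ucl u = a := by
  obtain ⟨u, hu⟩ := QuotientGroup.mk_surjective (Additive.toMul a : ℂˣ ⧸ algU)
  exact ⟨u, congrArg Additive.ofMul hu⟩

theorem ucl_zero (u : ℂˣ) : ucl u = 0 ↔ IsAlgebraic ℚ (u : ℂ) := by
  have h1 : ucl u = 0 ↔ (QuotientGroup.mk u : ℂˣ ⧸ algU) = 1 := Iff.rfl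
  rw [h1, QuotientGroup.eq_one_iff]
  rfl

theorem ucl_one : ucl 1 = 0 := rfl

theorem ucl_pow (u : ℂˣ) (k : ℕ) : ucl (u ^ k) = k • ucl u := by
  induction k with
  | zero => rw [pow_zero, zero_smul, ucl_one]
  | succ k ih => rw [pow_succ, ucl_mul, ih, succ_nsmul]

/-- the class of a number modulo the algebraic numbers -/
noncomputable def cl (z : ℂ) (hz : z ≠ 0) : QQ := ucl (Units.mk0 z hz)

theorem cl_eq_zero {z : ℂ} (hz : z ≠ 0) : cl z hz = 0 ↔ IsAlgebraic ℚ z := ucl_zero _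

theorem cl_mul {z z' : ℂ} (hz : z ≠ 0) (hz' : z' ≠ 0) :
    cl (z * z') (mul_ne_zero hz hz') = cl z hz + cl z' hz' := by
  unfold cl
  rw [← ucl_mul]
  congr 1
  exact Units.ext rfl

theorem cl_congr {z z' : ℂ} (h : z = z') (hz : z ≠ 0) : cl z hz = cl z' (h ▸ hz) := by
  subst h
  rfl

theorem cl_pow {z : ℂ} (hz : z ≠ 0) (k : ℕ) : cl (z ^ k) (pow_ne_zero k hz) = k • cl z hz := by
  unfold cl
  rw [← ucl_pow]
  congr 1
  exact Units.ext rfl

theorem cl_div {z z' : ℂ} (hz : z ≠ 0) (hz' : z' ≠ 0) :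
    cl (z / z') (div_ne_zero hz hz') = cl z hz - cl z' hz' := by
  rw [eq_sub_iff_add_eq, ← cl_mul (div_ne_zero hz hz') hz']
  exact cl_congr (div_mul_cancel₀ z hz') _

/-- no torsion -/
theorem tor_free (a : QQ) {k : ℕ} (hk : 0 < k) (h : k • a = 0) : a = 0 := by
  obtain ⟨u, rfl⟩ := ucl_surj a
  rw [← ucl_pow, ucl_zero, Units.val_pow_eq_pow_val] at h
  rw [ucl_zero]
  exact IsAlgebraic.of_pow hk h

section
variable {K : Type} [Field K] [NumberField K] {n : ℕ}
  (α : HeightOneSpectrum (𝓞 K) → Fin n → ℂ) (m : ℤ) (S : Set (HeightOneSpectrum (𝓞 K))) (ω : ℂ)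

/-- the class of `L(m, M ⊗ χ) Ω^{-χ(1)}` -/
noncomputable def DD (χ : Gal(AlgebraicClosure K/K) → ℂ) : QQ :=
  cl (exp (∑' v, hh α m S χ v - χ 1 * ω)) (exp_ne_zero _)

variable {α m S} {σ : ℝ}

theorem exists_bound {χ : Gal(AlgebraicClosure K/K) → ℂ} (h : IsGalChar χ) :
    ∃ C : ℝ, ∀ g, ‖χ g‖ ≤ C := by
  obtain ⟨d, ρ, hρ, rfl⟩ := artin_of_isGalChar h
  exact ⟨d, char_norm hρ⟩

theorem DD_add (hS : Bad α m σ S) (hσ : 1 < σ) {χ χ' : Gal(AlgebraicClosure K/K) → ℂ}
    (h : IsGalChar χ) (h' : IsGalChar χ') :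
    DD α m S ω (χ + χ') = DD α m S ω χ + DD α m S ω χ' := by
  obtain ⟨C, hC⟩ := exists_bound h
  obtain ⟨C', hC'⟩ := exists_bound h'
  unfold DD
  rw [← cl_mul]
  refine cl_congr ?_ _
  rw [← exp_add]
  congr 1
  have h1 : ∀ v, hh α m S (χ + χ') v = hh α m S χ v + hh α m S χ' v := hh_add hS hσ hC hC'
  rw [tsum_congr h1, (hh_summable hS hσ hC).tsum_add (hh_summable hS hσ hC'), Pi.add_apply]
  ring

theorem DD_nsmul (hS : Bad α m σ S) (hσ : 1 < σ) {χ : Gal(AlgebraicClosure K/K) → ℂ}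
    (h : IsGalChar χ) (k : ℕ) : DD α m S ω (k • χ) = k • DD α m S ω χ := by
  induction k with
  | zero =>
    rw [zero_smul, zero_smul]
    have h1 := DD_add (α := α) (m := m) ω hS hσ isGalChar_zero isGalChar_zero
    rw [add_zero] at h1
    exact left_eq_add.1 h1
  | succ k ih => rw [succ_nsmul, DD_add ω hS hσ (isGalChar_nsmul h k) h, ih, succ_nsmul]

theorem char_one {d : ℕ} (ρ : Representation ℂ Gal(AlgebraicClosure K/K) (Fin d → ℂ)) :
    ρ.character 1 = d := by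
  unfold Representation.character
  rw [map_one]
  simp

theorem value_ne (hS : Bad α m σ S) (hσ : 1 < σ) {d : ℕ}
    {ρ : Representation ℂ Gal(AlgebraicClosure K/K) (Fin d → ℂ)} (h : IsArtin ρ)
    {B : HeightOneSpectrum (𝓞 K) → ℂ[X]} (hB : IsTwist α ρ m B) : value m B ≠ 0 := by
  obtain ⟨u, hu, -, h1⟩ := value_eq hS hσ h hB
  rw [h1]
  exact mul_ne_zero hu (exp_ne_zero _)

theorem DD_value (hS : Bad α m σ S) (hσ : 1 < σ) {d : ℕ}
    {ρ : Representation ℂ Gal(AlgebraicClosure K/K) (Fin d → ℂ)} (h : IsArtin ρ)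
    {B : HeightOneSpectrum (𝓞 K) → ℂ[X]} (hB : IsTwist α ρ m B) :
    cl (value m B) (value_ne hS hσ h hB) =
      DD α m S ω ρ.character + d • cl (exp ω) (exp_ne_zero _) := by
  obtain ⟨u, hu, hua, h1⟩ := value_eq hS hσ h hB
  have h2 : value m B = u * (exp (∑' v, hh α m S ρ.character v - ρ.character 1 * ω) *
      exp ω ^ d) := by
    rw [h1, ← exp_nat_mul, ← exp_add, char_one]
    congr 2
    ring
  rw [cl_congr h2, cl_mul hu (mul_ne_zero (exp_ne_zero _) (pow_ne_zero _ (exp_ne_zero _))),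
    (cl_eq_zero hu).2 hua, zero_add, cl_mul (exp_ne_zero _) (pow_ne_zero _ (exp_ne_zero _)),
    cl_pow]
  rfl

/-- **The law** in terms of characters. -/
theorem law (hS : Bad α m σ S) (hσ : 1 < σ) {N : ℕ} (hN : 0 < N)
    (h : ∀ (F : IntermediateField K (AlgebraicClosure K)) (ψ : F.fixingSubgroup →* ℂˣ),
      FiniteDimensional K F → Cyc F ψ → IsEmpty (F →+* ℝ) → N ∣ Module.finrank K F →
      ∀ (d : ℕ) (ρ : Representation ℂ Gal(AlgebraicClosure K/K) (Fin d → ℂ)), IsArtin ρ →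
        ρ.character = indGal F (fun g => ((ψ g : ℂˣ) : ℂ)) →
        ∃ B, IsTwist α ρ m B ∧ IsAlgebraic ℚ (value m B / exp ω ^ d))
    {χ₁ χ₂ : Gal(AlgebraicClosure K/K) → ℂ} (h₁ : IsGalChar χ₁) (h₂ : IsGalChar χ₂)
    (heq : ∀ c, IsCC c → χ₁ c = χ₂ c) : DD α m S ω χ₁ = DD α m S ω χ₂ := by
  obtain ⟨k, hk, h3⟩ := conj_additive (DD α m S ω) (fun χ χ' a b => DD_add ω hS hσ a b) hN
    (fun f hf hfc => by
      obtain ⟨F, ψ, hfd, hcyc, htc, hdvd, hf⟩ := hf
      obtain ⟨d, ρ, hρ, hρf⟩ := artin_of_isGalChar hfc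
      obtain ⟨B, hB, hal⟩ := h F ψ hfd hcyc htc hdvd d ρ hρ (hρf.trans hf)
      have h1 := DD_value ω hS hσ hρ hB
      have h2 := (cl_eq_zero (div_ne_zero (value_ne hS hσ hρ hB)
        (pow_ne_zero d (exp_ne_zero ω)))).2 hal
      rw [cl_div (value_ne hS hσ hρ hB) (pow_ne_zero d (exp_ne_zero ω)), h1,
        cl_pow (exp_ne_zero ω),
        add_sub_cancel_right, hρf] at h2
      exact h2) h₁ h₂ heq
  have h4 : k • (DD α m S ω χ₁ - DD α m S ω χ₂) = 0 := by rw [smul_sub, h3, sub_self]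
  exact sub_eq_zero.1 (tor_free _ hk h4)

end

/-! ### Complex conjugations -/

section
variable {K : Type} [Field K] [NumberField K]

/-- the value of a character at a complex conjugation -/
theorem signature {d : ℕ} {ρ : Representation ℂ Gal(AlgebraicClosure K/K) (Fin d → ℂ)}
    {c : Gal(AlgebraicClosure K/K)} (hc : IsCC c) :
    ∃ p q : ℕ, p + q = d ∧ ρ.character c = p - q := by
  have h1 : ρ c ^ 2 = 1 := by
    rw [← map_pow, sq, cc_sq hc, map_one]
  obtain ⟨l, h2, -, -, h3⟩ := eig (ρ c) two_pos h1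
  have h4 := h3 1
  simp only [pow_one] at h4
  have h5 : ∀ i, l i = if l i = 1 then 1 else -1 := by
    intro i
    split_ifs with hi
    · exact hi
    · exact (sq_eq_one_iff.1 (h2 i)).resolve_left hi
  refine ⟨(Finset.univ.filter fun i => l i = 1).card, (Finset.univ.filter fun i => ¬ l i = 1).card,
    ?_, ?_⟩
  · rw [Finset.card_filter_add_card_filter_not, Finset.card_univ, Fintype.card_fin]
  · change LinearMap.trace ℂ _ (ρ c) = _
    rw [h4, Finset.sum_congr rfl fun i _ => h5 i, Finset.sum_ite]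
    simp
    ring

/-- over `ℚ` the complex conjugations are conjugate -/
theorem cc_conj [Subsingleton (K →+* ℂ)] {c c' : Gal(AlgebraicClosure K/K)} (h : IsCC c)
    (h' : IsCC c') : ∃ g, c' = g * c * g⁻¹ := by
  obtain ⟨ι, hι⟩ := h
  obtain ⟨ι', hι'⟩ := h'
  let _ : Algebra K ℂ := (ι.comp (algebraMap K (AlgebraicClosure K))).toAlgebra
  let _ : Algebra (AlgebraicClosure K) ℂ := ι.toAlgebra
  have : IsScalarTower K (AlgebraicClosure K) ℂ := IsScalarTower.of_algebraMap_eq fun x => rfl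
  let j : AlgebraicClosure K →ₐ[K] ℂ :=
    { ι' with
      commutes' := fun x => RingHom.congr_fun (Subsingleton.elim
        (ι'.comp (algebraMap K (AlgebraicClosure K)))
        (ι.comp (algebraMap K (AlgebraicClosure K)))) x }
  let g₀ : AlgebraicClosure K →ₐ[K] AlgebraicClosure K := j.restrictNormal (AlgebraicClosure K)
  have hg₀ : ∀ x, ι (g₀ x) = ι' x := fun x =>
    j.restrictNormal_commutes (AlgebraicClosure K) x
  let g : Gal(AlgebraicClosure K/K) := AlgEquiv.ofBijective g₀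
    (Algebra.IsAlgebraic.algHom_bijective g₀)
  have hg : ∀ x, ι (g x) = ι' x := hg₀
  have h1 : g * c' = c * g := by
    apply AlgEquiv.ext
    intro x
    apply ι.injective
    change ι (g (c' x)) = ι (c (g x))
    rw [hg, hι', hι, hg]
  refine ⟨g⁻¹, ?_⟩
  rw [inv_inv, mul_assoc, ← h1, inv_mul_cancel_left]

end

end Pool.Agent.Q246.DL
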