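import Pool.Agent.Q286.RL.Eig

/-! Euler factors at one place. -/

set_option autoImplicit false
set_option linter.unusedSectionVars false

namespace Pool.Agent.Q246.DL

open Complex Filter
open scoped Classical

/-- the eigenvalues of an endomorphism of finite order -/
theorem eig {d : ℕ} (A : Module.End ℂ (Fin d → ℂ)) {m : ℕ} (hm : 0 < m) (hA : A ^ m = 1) :
    ∃ l : Fin d → ℂ, (∀ i, l i ^ m = 1) ∧ (∀ i, ‖l i‖ = 1) ∧
      (∀ c : ℂ, LinearMap.det (1 - c • A) = ∏ i, (1 - c * l i)) ∧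
      ∀ k : ℕ, LinearMap.trace ℂ _ (A ^ k) = ∑ i, l i ^ k := by
  have h := Pool.Agent.Q286.RL.exists_eig A hm hA
  rw [Module.finrank_fin_fun] at h
  obtain ⟨l, h1, h2, h3⟩ := h
  refine ⟨l, fun i => ?_, h1, h2, h3⟩
  have hl : l i ≠ 0 := by
    intro h
    have := h1 i
    rw [h, norm_zero] at this
    exact zero_ne_one this
  have h4 : LinearMap.det (1 - (l i)⁻¹ • A) = 0 := by
    rw [h2]
    refine Finset.prod_eq_zero (Finset.mem_univ i) ?_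
    rw [inv_mul_cancel₀ hl, sub_self]
  obtain ⟨v, hv, hv0⟩ := Submodule.exists_mem_ne_zero_of_ne_bot
    (LinearMap.bot_lt_ker_of_det_eq_zero h4).ne'
  have h5 : A v = l i • v := by
    rw [LinearMap.mem_ker, LinearMap.sub_apply, Module.End.one_apply, LinearMap.smul_apply,
      sub_eq_zero] at hv
    conv_rhs => rw [hv]
    rw [smul_smul, mul_inv_cancel₀ hl, one_smul]
  have h6 := Pool.Agent.Q286.RL.pow_eigen A h5 m
  rw [hA, Module.End.one_apply] at h6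
  have h7 : (l i ^ m - 1) • v = 0 := by rw [sub_smul, one_smul, ← h6, sub_self]
  rcases smul_eq_zero.1 h7 with h8 | h8
  · exact sub_eq_zero.1 h8
  · exact absurd h8 hv0

/-- the logarithm of the Euler factor -/
noncomputable def lt (c : ℕ → ℂ) (x : ℂ) : ℂ := ∑' n : ℕ, c n * x ^ n / n

theorem lt_hasSum {d : ℕ} (l : Fin d → ℂ) (hl : ∀ i, ‖l i‖ = 1) {x : ℂ} (hx : ‖x‖ < 1) :
    HasSum (fun n : ℕ => (∑ i, l i ^ n) * x ^ n / n) (∑ i, -log (1 - x * l i)) := by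
  have h1 : ∀ i, HasSum (fun n : ℕ => (x * l i) ^ n / n) (-log (1 - x * l i)) := fun i =>
    hasSum_taylorSeries_neg_log (by rw [norm_mul, hl, mul_one]; exact hx)
  have h2 := hasSum_sum fun i (_ : i ∈ Finset.univ) => h1 i
  refine h2.congr_fun fun n => ?_
  rw [Finset.sum_mul, Finset.sum_div]
  refine Finset.sum_congr rfl fun i _ => ?_
  rw [mul_pow]
  ring

theorem exp_lt {d : ℕ} (A : Module.End ℂ (Fin d → ℂ)) {m : ℕ} (hm : 0 < m) (hA : A ^ m = 1)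
    {x : ℂ} (hx : ‖x‖ < 1) :
    exp (lt (fun n => LinearMap.trace ℂ _ (A ^ n)) x) = (LinearMap.det (1 - x • A))⁻¹ := by
  obtain ⟨l, -, h1, h2, h3⟩ := eig A hm hA
  have h4 : lt (fun n => LinearMap.trace ℂ _ (A ^ n)) x = ∑ i, -log (1 - x * l i) := by
    unfold lt
    simp only [h3]
    exact (lt_hasSum l h1 hx).tsum_eq
  rw [h4, exp_sum, h2, ← Finset.prod_inv_distrib]
  refine Finset.prod_congr rfl fun i _ => ?_
  rw [exp_neg, exp_log]
  intro h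
  have h5 : ‖x * l i‖ = 1 := by
    rw [sub_eq_zero] at h
    rw [← h, norm_one]
  rw [norm_mul, h1, mul_one] at h5
  exact hx.ne h5

theorem det_ne {d : ℕ} (A : Module.End ℂ (Fin d → ℂ)) {m : ℕ} (hm : 0 < m) (hA : A ^ m = 1)
    {x : ℂ} (hx : ‖x‖ < 1) : LinearMap.det (1 - x • A) ≠ 0 := by
  intro h
  have h1 := exp_lt A hm hA hx
  rw [h, inv_zero] at h1
  exact exp_ne_zero _ h1

theorem det_alg {d : ℕ} (A : Module.End ℂ (Fin d → ℂ)) {m : ℕ} (hm : 0 < m) (hA : A ^ m = 1)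
    {x : ℂ} (hx : IsAlgebraic ℚ x) : IsAlgebraic ℚ (LinearMap.det (1 - x • A)) := by
  obtain ⟨l, h0, h1, h2, h3⟩ := eig A hm hA
  rw [h2]
  have hl : ∀ i, IsAlgebraic ℚ (l i) := fun i => by
    have h4 : IsAlgebraic ℚ (l i ^ m) := by
      rw [h0]
      exact isAlgebraic_one
    exact IsAlgebraic.of_pow hm h4
  exact Finset.prod_induction _ (IsAlgebraic ℚ) (fun a b ha hb => ha.mul hb) isAlgebraic_one
    fun i _ => isAlgebraic_one.sub (hx.mul (hl i))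

theorem trace_le {d : ℕ} (A : Module.End ℂ (Fin d → ℂ)) {m : ℕ} (hm : 0 < m) (hA : A ^ m = 1) :
    ‖LinearMap.trace ℂ _ A‖ ≤ d := by
  obtain ⟨l, h0, h1, h2, h3⟩ := eig A hm hA
  have h4 := h3 1
  rw [pow_one] at h4
  rw [h4]
  refine (norm_sum_le _ _).trans ?_
  simp [h1]

theorem geom {r : ℝ} (h0 : 0 ≤ r) (h1 : r < 1) :
    HasSum (fun n : ℕ => if n = 0 then (0 : ℝ) else r ^ n) (r * (1 - r)⁻¹) := by
  have h2 := (hasSum_geometric_of_lt_one h0 h1).mul_left r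
  have h3 : HasSum (fun n : ℕ => if n + 1 = 0 then (0 : ℝ) else r ^ (n + 1)) (r * (1 - r)⁻¹) := by
    refine h2.congr_fun fun n => ?_
    rw [if_neg (Nat.succ_ne_zero n), pow_succ']
  have h4 := (hasSum_nat_add_iff (f := fun n : ℕ => if n = 0 then (0 : ℝ) else r ^ n) 1).1 h3
  simpa using h4

theorem lt_norm_term {c : ℕ → ℂ} {C : ℝ} (hC : ∀ n, ‖c n‖ ≤ C) (x : ℂ) (n : ℕ) :
    ‖c n * x ^ n / n‖ ≤ C * (if n = 0 then (0 : ℝ) else ‖x‖ ^ n) := by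
  rcases Nat.eq_zero_or_pos n with rfl | hn
  · simp
  · rw [if_neg hn.ne', norm_div, norm_mul, norm_pow]
    have h1 : (1 : ℝ) ≤ ‖(n : ℂ)‖ := by
      rw [Complex.norm_natCast]
      exact_mod_cast hn
    have h2 : 0 ≤ ‖c n‖ * ‖x‖ ^ n := by positivity
    calc ‖c n‖ * ‖x‖ ^ n / ‖(n : ℂ)‖ ≤ ‖c n‖ * ‖x‖ ^ n := div_le_self h2 h1
      _ ≤ C * ‖x‖ ^ n := mul_le_mul_of_nonneg_right (hC n) (by positivity)

theorem lt_summable {c : ℕ → ℂ} {C : ℝ} (hC : ∀ n, ‖c n‖ ≤ C) {x : ℂ} (hx : ‖x‖ < 1) :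
    Summable fun n : ℕ => c n * x ^ n / n :=
  Summable.of_norm_bounded ((geom (norm_nonneg x) hx).summable.mul_left C)
    fun n => lt_norm_term hC x n

theorem lt_norm {c : ℕ → ℂ} {C : ℝ} (hC : ∀ n, ‖c n‖ ≤ C) {x : ℂ} (hx : ‖x‖ ≤ 1 / 2) :
    ‖lt c x‖ ≤ C * (2 * ‖x‖) := by
  have hx' : ‖x‖ < 1 := by linarith
  have hC0 : 0 ≤ C := (norm_nonneg _).trans (hC 0)
  have h1 := tsum_of_norm_bounded ((geom (norm_nonneg x) hx').mul_left C)
    fun n => lt_norm_term hC x n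
  refine h1.trans (mul_le_mul_of_nonneg_left ?_ hC0)
  have h2 : (1 - ‖x‖)⁻¹ ≤ 2 := by
    rw [inv_le_comm₀ (by linarith) (by norm_num)]
    linarith
  calc ‖x‖ * (1 - ‖x‖)⁻¹ ≤ ‖x‖ * 2 := mul_le_mul_of_nonneg_left h2 (norm_nonneg x)
    _ = 2 * ‖x‖ := by ring

theorem lt_add {c c' : ℕ → ℂ} {C C' : ℝ} (hC : ∀ n, ‖c n‖ ≤ C) (hC' : ∀ n, ‖c' n‖ ≤ C')
    {x : ℂ} (hx : ‖x‖ < 1) : lt (fun n => c n + c' n) x = lt c x + lt c' x := by
  unfold lt
  rw [← (lt_summable hC hx).tsum_add (lt_summable hC' hx)]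
  refine tsum_congr fun n => ?_
  ring

end Pool.Agent.Q246.DL
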