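import Pool.Agent.Q246.BI.Van
import Pool.Agent.Q246.DL.Loc
import Pool.Agent.W401.Cheb.Frob
import Pool.Agent.H921R2.TatePole.Dedekind

/-! The values of the Euler products of all Artin twists to the right of the strip. -/

set_option autoImplicit false
set_option linter.unusedSectionVars false

namespace Pool.Agent.Q246.DL

open Complex Filter NumberField IsDedekindDomain Polynomial
open Pool.Agent.Q246.BI Pool.Agent.Q246.RP Pool.Agent.W401.Cheb
open Pool.Agent.H921R2.TatePole (nm nm_summable nm_rpow_le_half two_le_nm)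
open scoped Classical

section
variable {K : Type} [Field K] [NumberField K]

/-- `ρ` is an Artin representation: it is trivial on an open subgroup -/
def IsArtin {d : ℕ} (ρ : Representation ℂ Gal(AlgebraicClosure K/K) (Fin d → ℂ)) : Prop :=
  ∃ E : IntermediateField K (AlgebraicClosure K), FiniteDimensional K E ∧
    ∀ g ∈ E.fixingSubgroup, ρ g = 1

theorem isGalChar_of_artin {d : ℕ}
    {ρ : Representation ℂ Gal(AlgebraicClosure K/K) (Fin d → ℂ)} (h : IsArtin ρ) :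
    IsGalChar ρ.character := by
  obtain ⟨E, hE, h⟩ := h
  refine ⟨d, ((LinearMap.toMatrixAlgEquiv' (R := ℂ) (n := Fin d)).toMonoidHom.comp ρ).toHomUnits,
    ⟨E, hE, fun g hg => ?_⟩, fun g => ?_⟩
  · apply Units.ext
    change LinearMap.toMatrixAlgEquiv' (ρ g) = 1
    rw [h g hg, map_one]
  · change LinearMap.trace ℂ _ (ρ g) = (LinearMap.toMatrixAlgEquiv' (ρ g)).trace
    rw [LinearMap.trace_eq_matrix_trace ℂ (Pi.basisFun ℂ (Fin d))]
    rfl

theorem artin_of_isGalChar {χ : Gal(AlgebraicClosure K/K) → ℂ} (h : IsGalChar χ) :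
    ∃ (d : ℕ) (ρ : Representation ℂ Gal(AlgebraicClosure K/K) (Fin d → ℂ)), IsArtin ρ ∧
      ρ.character = χ := by
  obtain ⟨d, τ, ⟨E, hE, h1⟩, h2⟩ := h
  refine ⟨d, (Matrix.toLinAlgEquiv' (R := ℂ) (n := Fin d)).toMonoidHom.comp
    ((Units.coeHom _).comp τ), ⟨E, hE, fun g hg => ?_⟩, ?_⟩
  · change Matrix.toLinAlgEquiv' (τ g : Matrix (Fin d) (Fin d) ℂ) = 1
    rw [h1 g hg, Units.val_one, map_one]
  · funext g
    rw [h2]
    change LinearMap.trace ℂ _ (Matrix.toLinAlgEquiv' (τ g : Matrix (Fin d) (Fin d) ℂ)) = _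
    rw [LinearMap.trace_eq_matrix_trace ℂ (Pi.basisFun ℂ (Fin d))]
    congr 1
    exact LinearMap.toMatrix'_toLin' _

/-- elements have finite order modulo an open subgroup -/
theorem pow_one_of_artin {d : ℕ}
    {ρ : Representation ℂ Gal(AlgebraicClosure K/K) (Fin d → ℂ)} (h : IsArtin ρ)
    (g : Gal(AlgebraicClosure K/K)) : ∃ m : ℕ, 0 < m ∧ ρ g ^ m = 1 := by
  obtain ⟨E, hE, h⟩ := h
  have h1 := fin_index E
  obtain ⟨m, hm, -, hm1⟩ := Subgroup.exists_pow_mem_of_index_ne_zero h1.index_ne_zero g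
  exact ⟨m, hm, by rw [← map_pow]; exact h _ hm1⟩

theorem char_norm {d : ℕ}
    {ρ : Representation ℂ Gal(AlgebraicClosure K/K) (Fin d → ℂ)} (h : IsArtin ρ)
    (g : Gal(AlgebraicClosure K/K)) : ‖ρ.character g‖ ≤ d := by
  obtain ⟨m, hm, h1⟩ := pow_one_of_artin h g
  exact trace_le _ hm h1

/-- sums of characters -/
theorem isGalChar_add {χ χ' : Gal(AlgebraicClosure K/K) → ℂ} (h : IsGalChar χ)
    (h' : IsGalChar χ') : IsGalChar (χ + χ') := by
  obtain ⟨n, τ, ⟨E, hE, hs⟩, hτ⟩ := h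
  obtain ⟨n', τ', ⟨E', hE', hs'⟩, hτ'⟩ := h'
  have h0 : FiniteDimensional K (E ⊔ E' : IntermediateField K (AlgebraicClosure K)) :=
    IntermediateField.finiteDimensional_sup _ _
  let σ : Gal(AlgebraicClosure K/K) →* Matrix (Fin n ⊕ Fin n') (Fin n ⊕ Fin n') ℂ :=
    { toFun := fun g => Matrix.fromBlocks (τ g) 0 0 (τ' g)
      map_one' := by
        rw [map_one, map_one]
        exact Matrix.fromBlocks_one
      map_mul' := fun a b => by
        rw [map_mul, map_mul, Matrix.fromBlocks_multiply]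
        simp }
  refine ⟨n + n', ((Matrix.reindexAlgEquiv ℂ ℂ finSumFinEquiv).toMonoidHom.comp σ).toHomUnits,
    ⟨_, h0, fun g hg => ?_⟩, fun g => ?_⟩
  · apply Units.ext
    change Matrix.reindexAlgEquiv ℂ ℂ finSumFinEquiv
      (Matrix.fromBlocks (τ g : Matrix (Fin n) (Fin n) ℂ) 0 0
        (τ' g : Matrix (Fin n') (Fin n') ℂ)) = 1
    rw [hs g (IntermediateField.fixingSubgroup_antitone le_sup_left hg),
      hs' g (IntermediateField.fixingSubgroup_antitone le_sup_right hg)]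
    rw [Units.val_one, Units.val_one, Matrix.fromBlocks_one, map_one]
  · change χ g + χ' g = (Matrix.reindexAlgEquiv ℂ ℂ finSumFinEquiv
      (Matrix.fromBlocks (τ g : Matrix (Fin n) (Fin n) ℂ) 0 0
        (τ' g : Matrix (Fin n') (Fin n') ℂ))).trace
    rw [hτ, hτ']
    change _ = (Matrix.reindex finSumFinEquiv finSumFinEquiv
      (Matrix.fromBlocks (τ g : Matrix (Fin n) (Fin n) ℂ) 0 0
        (τ' g : Matrix (Fin n') (Fin n') ℂ))).trace
    rw [Matrix.reindex_apply]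
    unfold Matrix.trace
    simp only [Matrix.diag_apply, Matrix.submatrix_apply]
    rw [Equiv.sum_comp finSumFinEquiv.symm (fun i => (Matrix.fromBlocks (τ g : Matrix (Fin n) (Fin n) ℂ) 0 0
        (τ' g : Matrix (Fin n') (Fin n') ℂ)) i i), Fintype.sum_sum_type]
    simp

theorem isGalChar_zero : IsGalChar (0 : Gal(AlgebraicClosure K/K) → ℂ) :=
  ⟨0, 1, ⟨⊥, inferInstance, fun _ _ => rfl⟩, fun g => by simp [Matrix.trace]⟩

theorem isGalChar_nsmul {χ : Gal(AlgebraicClosure K/K) → ℂ} (h : IsGalChar χ) (m : ℕ) :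
    IsGalChar (m • χ) := by
  induction m with
  | zero => rw [zero_smul]; exact isGalChar_zero
  | succ m ih => rw [succ_nsmul]; exact isGalChar_add ih h

/-- the Frobenius eigenvalues of a pure motive of weight `w` and rank `n`, at almost all places -/
structure Eigenvalues (n : ℕ) (w : ℤ) (α : HeightOneSpectrum (𝓞 K) → Fin n → ℂ) : Prop where
  algebraic : ∀ᶠ v in cofinite, ∀ i, IsAlgebraic ℚ (α v i)
  weight : ∀ᶠ v in cofinite, ∀ i, ‖α v i‖ ≤ (Ideal.absNorm v.asIdeal : ℝ) ^ ((w : ℝ) / 2)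

/-- the polynomials `B v` are Euler factors of `M ⊗ ρ` -/
structure IsTwist {n : ℕ} (α : HeightOneSpectrum (𝓞 K) → Fin n → ℂ) {d : ℕ}
    (ρ : Representation ℂ Gal(AlgebraicClosure K/K) (Fin d → ℂ)) (m : ℤ)
    (B : HeightOneSpectrum (𝓞 K) → ℂ[X]) : Prop where
  good : ∀ᶠ v in cofinite, ∀ σ, IsFrob v σ → ∀ z : ℂ,
    (B v).eval z = ∏ i, LinearMap.det (1 - (α v i * z) • ρ σ⁻¹)
  algebraic : ∀ v k, IsAlgebraic ℚ ((B v).coeff k)
  ne : ∀ v, (B v).eval ((Ideal.absNorm v.asIdeal : ℂ) ^ (-m)) ≠ 0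

/-- the value at `m` -/
noncomputable def value (m : ℤ) (B : HeightOneSpectrum (𝓞 K) → ℂ[X]) : ℂ :=
  ∏' v : HeightOneSpectrum (𝓞 K), ((B v).eval ((Ideal.absNorm v.asIdeal : ℂ) ^ (-m)))⁻¹

/-- a Frobenius element -/
noncomputable def fr (v : HeightOneSpectrum (𝓞 K)) : Gal(AlgebraicClosure K/K) :=
  (Pool.Agent.W401.Frob.exists_frob v).choose

theorem fr_spec (v : HeightOneSpectrum (𝓞 K)) : IsFrob v (fr v) :=
  (Pool.Agent.W401.Frob.exists_frob v).choose_spec

section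
variable {n : ℕ} (α : HeightOneSpectrum (𝓞 K) → Fin n → ℂ) (m : ℤ)

/-- `α_{v,i} N(v)^{-m}` -/
noncomputable def xx (v : HeightOneSpectrum (𝓞 K)) (i : Fin n) : ℂ :=
  α v i * (Ideal.absNorm v.asIdeal : ℂ) ^ (-m)

/-- the local logarithm -/
noncomputable def hh (S : Set (HeightOneSpectrum (𝓞 K))) (χ : Gal(AlgebraicClosure K/K) → ℂ)
    (v : HeightOneSpectrum (𝓞 K)) : ℂ :=
  if v ∈ S then 0 else ∑ i, lt (fun k => χ ((fr v)⁻¹ ^ k)) (xx α m v i)

/-- the bad places -/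
structure Bad (σ : ℝ) (S : Set (HeightOneSpectrum (𝓞 K))) : Prop where
  fin : S.Finite
  alg : ∀ v ∉ S, ∀ i, IsAlgebraic ℚ (α v i)
  le : ∀ v ∉ S, ∀ i, ‖xx α m v i‖ ≤ (nm v : ℝ) ^ (-σ)

theorem exists_bad {w : ℤ} (h : Eigenvalues n w α) (hm : w + 2 < 2 * m) :
    ∃ (σ : ℝ) (S : Set (HeightOneSpectrum (𝓞 K))), 1 < σ ∧ Bad α m σ S := by
  refine ⟨m - w / 2, {v | ¬ ((∀ i, IsAlgebraic ℚ (α v i)) ∧
    ∀ i, ‖α v i‖ ≤ (Ideal.absNorm v.asIdeal : ℝ) ^ ((w : ℝ) / 2))}, ?_, ?_, ?_, ?_⟩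
  · have : (w : ℝ) + 2 < 2 * m := by exact_mod_cast hm
    linarith
  · exact Filter.eventually_cofinite.1 (h.algebraic.and h.weight)
  · intro v hv
    rw [Set.mem_ofPred_eq, not_not] at hv
    exact hv.1
  · intro v hv i
    rw [Set.mem_ofPred_eq, not_not] at hv
    have h1 : (0 : ℝ) < nm v := by
      have := two_le_nm v
      exact_mod_cast (by omega : 0 < nm v)
    have h2 : ‖((Ideal.absNorm v.asIdeal : ℂ)) ^ (-m)‖ = (nm v : ℝ) ^ (-(m : ℝ)) := by
      rw [norm_zpow, Complex.norm_natCast, ← Real.rpow_intCast]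
      push_cast
      rfl
    unfold xx
    rw [norm_mul, h2]
    calc ‖α v i‖ * (nm v : ℝ) ^ (-(m : ℝ)) ≤ (nm v : ℝ) ^ ((w : ℝ) / 2) * (nm v : ℝ) ^ (-(m : ℝ)) :=
          mul_le_mul_of_nonneg_right (hv.2 i) (by positivity)
      _ = (nm v : ℝ) ^ (-((m : ℝ) - w / 2)) := by
          rw [← Real.rpow_add h1]
          congr 1
          ring

variable {α m} {σ : ℝ} {S : Set (HeightOneSpectrum (𝓞 K))}

theorem Bad.half (hS : Bad α m σ S) (hσ : 1 < σ) {v : HeightOneSpectrum (𝓞 K)} (hv : v ∉ S)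
    (i : Fin n) : ‖xx α m v i‖ ≤ 1 / 2 :=
  (hS.le v hv i).trans (nm_rpow_le_half v hσ.le)

theorem hh_summable (hS : Bad α m σ S) (hσ : 1 < σ) {χ : Gal(AlgebraicClosure K/K) → ℂ} {C : ℝ}
    (hC : ∀ g, ‖χ g‖ ≤ C) : Summable (hh α m S χ) := by
  have hC0 : 0 ≤ C := (norm_nonneg _).trans (hC 1)
  refine Summable.of_norm_bounded ((nm_summable (K := K) hσ).mul_left (n * (C * 2))) fun v => ?_
  unfold hh
  split_ifs with hv
  · rw [norm_zero]
    positivity
  · refine (norm_sum_le _ _).trans ?_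
    have h1 : ∀ i ∈ (Finset.univ : Finset (Fin n)),
        ‖lt (fun k => χ ((fr v)⁻¹ ^ k)) (xx α m v i)‖ ≤ C * (2 * (nm v : ℝ) ^ (-σ)) := fun i _ =>
      (lt_norm (fun k => hC _) (hS.half hσ hv i)).trans
        (mul_le_mul_of_nonneg_left (mul_le_mul_of_nonneg_left (hS.le v hv i) (by norm_num)) hC0)
    refine (Finset.sum_le_sum h1).trans ?_
    rw [Finset.sum_const, Finset.card_univ, Fintype.card_fin, nsmul_eq_mul]
    apply le_of_eq
    ring

theorem hh_add (hS : Bad α m σ S) (hσ : 1 < σ) {χ χ' : Gal(AlgebraicClosure K/K) → ℂ} {C C' : ℝ}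
    (hC : ∀ g, ‖χ g‖ ≤ C) (hC' : ∀ g, ‖χ' g‖ ≤ C') (v : HeightOneSpectrum (𝓞 K)) :
    hh α m S (χ + χ') v = hh α m S χ v + hh α m S χ' v := by
  unfold hh
  split_ifs with hv
  · rw [add_zero]
  · rw [← Finset.sum_add_distrib]
    refine Finset.sum_congr rfl fun i _ => ?_
    exact lt_add (fun k => hC _) (fun k => hC' _) ((hS.half hσ hv i).trans_lt (by norm_num))

theorem exp_hh (hS : Bad α m σ S) (hσ : 1 < σ) {d : ℕ}
    {ρ : Representation ℂ Gal(AlgebraicClosure K/K) (Fin d → ℂ)} (h : IsArtin ρ)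
    {v : HeightOneSpectrum (𝓞 K)} (hv : v ∉ S) :
    exp (hh α m S ρ.character v) =
      (∏ i, LinearMap.det (1 - (xx α m v i) • ρ (fr v)⁻¹))⁻¹ := by
  unfold hh
  rw [if_neg hv, exp_sum, ← Finset.prod_inv_distrib]
  refine Finset.prod_congr rfl fun i _ => ?_
  obtain ⟨k, hk, h1⟩ := pow_one_of_artin h (fr v)⁻¹
  rw [← exp_lt _ hk h1 ((hS.half hσ hv i).trans_lt (by norm_num))]
  unfold Representation.character
  simp only [map_pow]

theorem norm_alg (v : HeightOneSpectrum (𝓞 K)) (m : ℤ) :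
    IsAlgebraic ℚ ((Ideal.absNorm v.asIdeal : ℂ) ^ (-m)) := by
  have h1 : ((Ideal.absNorm v.asIdeal : ℂ) ^ (-m)) =
      algebraMap ℚ ℂ ((Ideal.absNorm v.asIdeal : ℚ) ^ (-m)) := by
    rw [map_zpow₀, map_natCast]
  rw [h1]
  exact isAlgebraic_algebraMap _

theorem exp_hh_alg (hS : Bad α m σ S) (hσ : 1 < σ) {d : ℕ}
    {ρ : Representation ℂ Gal(AlgebraicClosure K/K) (Fin d → ℂ)} (h : IsArtin ρ)
    (v : HeightOneSpectrum (𝓞 K)) : IsAlgebraic ℚ (exp (hh α m S ρ.character v)) := by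
  by_cases hv : v ∈ S
  · unfold hh
    rw [if_pos hv, exp_zero]
    exact isAlgebraic_one
  · rw [exp_hh hS hσ h hv]
    refine IsAlgebraic.inv (Finset.prod_induction _ (IsAlgebraic ℚ) (fun a b ha hb => ha.mul hb)
      isAlgebraic_one fun i _ => ?_)
    obtain ⟨k, hk, h1⟩ := pow_one_of_artin h (fr v)⁻¹
    exact det_alg _ hk h1 ((hS.alg v hv i).mul (norm_alg v m))

theorem eval_alg {B : ℂ[X]} (hB : ∀ k, IsAlgebraic ℚ (B.coeff k)) {z : ℂ} (hz : IsAlgebraic ℚ z) :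
    IsAlgebraic ℚ (B.eval z) := by
  rw [Polynomial.eval_eq_sum_range]
  exact Finset.sum_induction _ (IsAlgebraic ℚ) (fun a b ha hb => ha.add hb) isAlgebraic_zero
    fun k _ => (hB k).mul (hz.pow k)

/-- **The value**, up to algebraic numbers. -/
theorem value_eq (hS : Bad α m σ S) (hσ : 1 < σ) {d : ℕ}
    {ρ : Representation ℂ Gal(AlgebraicClosure K/K) (Fin d → ℂ)} (h : IsArtin ρ)
    {B : HeightOneSpectrum (𝓞 K) → ℂ[X]} (hB : IsTwist α ρ m B) :
    ∃ u : ℂ, u ≠ 0 ∧ IsAlgebraic ℚ u ∧ value m B = u * exp (∑' v, hh α m S ρ.character v) := by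
  have hsum := hh_summable (α := α) (m := m) hS hσ (char_norm h)
  have hfin : ∀ᶠ v in cofinite, ((B v).eval ((Ideal.absNorm v.asIdeal : ℂ) ^ (-m)))⁻¹ =
      exp (hh α m S ρ.character v) := by
    have h1 : ∀ᶠ v in cofinite, v ∉ S := hS.fin.eventually_cofinite_notMem
    filter_upwards [hB.good, h1] with v hv hvS
    rw [exp_hh hS hσ h hvS, hv (fr v) (fr_spec v)]
    rfl
  have hT := Filter.eventually_cofinite.1 hfin
  set T : Finset (HeightOneSpectrum (𝓞 K)) := hT.toFinset with hTdef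
  have hmem : ∀ v ∉ T, ((B v).eval ((Ideal.absNorm v.asIdeal : ℂ) ^ (-m)))⁻¹ =
      exp (hh α m S ρ.character v) := by
    intro v hv
    by_contra hc
    exact hv (hT.mem_toFinset.2 hc)
  -- the logarithms
  let u : HeightOneSpectrum (𝓞 K) → ℂ := fun v =>
    if v ∈ T then log (((B v).eval ((Ideal.absNorm v.asIdeal : ℂ) ^ (-m)))⁻¹)
      else hh α m S ρ.character v
  have hu : ∀ v, exp (u v) = ((B v).eval ((Ideal.absNorm v.asIdeal : ℂ) ^ (-m)))⁻¹ := by
    intro v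
    by_cases hv : v ∈ T
    · simp only [u, if_pos hv]
      exact exp_log (inv_ne_zero (hB.ne v))
    · simp only [u, if_neg hv]
      exact (hmem v hv).symm
  have hdz : ∀ v ∉ T, u v - hh α m S ρ.character v = 0 := by
    intro v hv
    simp only [u, if_neg hv, sub_self]
  have hd : HasSum (fun v => u v - hh α m S ρ.character v)
      (∑ v ∈ T, (u v - hh α m S ρ.character v)) := hasSum_sum_of_ne_finset_zero hdz
  have hus : HasSum u (∑ v ∈ T, (u v - hh α m S ρ.character v) +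
      ∑' v, hh α m S ρ.character v) := by
    have h2 := hd.add hsum.hasSum
    refine h2.congr_fun fun v => ?_
    ring
  have hprod := hus.cexp
  have h3 : value m B = exp (∑ v ∈ T, (u v - hh α m S ρ.character v) +
      ∑' v, hh α m S ρ.character v) := by
    unfold value
    rw [← hprod.tprod_eq]
    exact tprod_congr fun v => (hu v).symm
  refine ⟨exp (∑ v ∈ T, (u v - hh α m S ρ.character v)), exp_ne_zero _, ?_, ?_⟩
  · rw [exp_sum]
    refine Finset.prod_induction _ (IsAlgebraic ℚ) (fun a b ha hb => ha.mul hb)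
      isAlgebraic_one fun v _ => ?_
    rw [exp_sub, hu, div_eq_mul_inv]
    exact (IsAlgebraic.inv (eval_alg (hB.algebraic v) (norm_alg v m))).mul
      (IsAlgebraic.inv (exp_hh_alg hS hσ h v))
  · rw [h3, exp_add]

end

end

end Pool.Agent.Q246.DL
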